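import Pool.Agent.V5helper14.FB.Stm

/-!
# Project FB, job DEG (helper36): double counting of the vertices of small degree into `A`
-/

set_option autoImplicit false

namespace Pool.Agent.V5helper36.FB

open Finset Pool.Agent.V5helper14.FB

theorem t_DEG : S_DEG := by
  classical
  intro N n m G _ hn hG A X hAX hm
  rcases Nat.eq_zero_or_pos m with rfl | hm0
  · simp only [Nat.not_lt_zero, Finset.filter_false, Finset.card_empty]
    omega
  have hcard : Fintype.card (Fin m × Fin n) ≤ Fintype.card A := by
    rw [Fintype.card_prod, Fintype.card_fin, Fintype.card_fin, Fintype.card_coe]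
    exact hm
  obtain ⟨e⟩ := Function.Embedding.nonempty_of_card_le hcard
  set S : Finset (Fin N) := X.filter fun x => 2 * (A.filter fun a => G.Adj x a).card < m with hS
  have hB : ∀ j : Fin m,
      (S.filter fun x => ∀ i : Fin n, ¬ G.Adj x (e (j, i))).card ≤ n - 1 := by
    intro j
    by_contra hc
    have hAj : (Finset.univ.image (fun i : Fin n => (e (j, i) : Fin N))).card = n := by
      rw [Finset.card_image_of_injective, Finset.card_univ, Fintype.card_fin]
      intro i i' h
      have := e.injective (Subtype.ext h)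
      simpa using this
    obtain ⟨a, ha, b, hb, hab⟩ := hG (Finset.univ.image (fun i : Fin n => (e (j, i) : Fin N)))
      (S.filter fun x => ∀ i : Fin n, ¬ G.Adj x (e (j, i))) (by
        rw [Finset.disjoint_left]
        intro a ha hb
        obtain ⟨i, -, rfl⟩ := Finset.mem_image.1 ha
        exact Finset.disjoint_left.1 hAX (e (j, i)).2
          (Finset.mem_filter.1 (Finset.mem_filter.1 hb).1).1) (by omega) (by omega)
    obtain ⟨i, -, rfl⟩ := Finset.mem_image.1 ha
    exact (Finset.mem_filter.1 hb).2 i hab.symm
  have hZ : ∀ x ∈ S, m + 1 ≤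
      2 * (Finset.univ.filter fun j : Fin m => ∀ i : Fin n, ¬ G.Adj x (e (j, i))).card := by
    intro x hx
    have hx2 := (Finset.mem_filter.1 hx).2
    have h1 : (Finset.univ.filter fun j : Fin m => ¬ ∀ i : Fin n, ¬ G.Adj x (e (j, i))).card ≤
        (A.filter fun a => G.Adj x a).card := by
      have h2 : (Finset.univ.filter fun j : Fin m => ¬ ∀ i : Fin n, ¬ G.Adj x (e (j, i))) ⊆
          (Finset.univ.filter fun p : Fin m × Fin n => G.Adj x (e p)).image Prod.fst := by
        intro j hj
        have h3 := (Finset.mem_filter.1 hj).2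
        push Not at h3
        obtain ⟨i, hi⟩ := h3
        exact Finset.mem_image.2 ⟨(j, i), Finset.mem_filter.2 ⟨Finset.mem_univ _, hi⟩, rfl⟩
      have h4 : ((Finset.univ.filter fun p : Fin m × Fin n => G.Adj x (e p)).image
          (fun p => (e p : Fin N))).card =
          (Finset.univ.filter fun p : Fin m × Fin n => G.Adj x (e p)).card := by
        apply Finset.card_image_of_injective
        intro p p' h
        exact e.injective (Subtype.ext h)
      have h5 : (Finset.univ.filter fun p : Fin m × Fin n => G.Adj x (e p)).image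
          (fun p => (e p : Fin N)) ⊆ A.filter fun a => G.Adj x a := by
        intro a ha
        obtain ⟨p, hp, rfl⟩ := Finset.mem_image.1 ha
        exact Finset.mem_filter.2 ⟨(e p).2, (Finset.mem_filter.1 hp).2⟩
      have h6 := Finset.card_le_card h2
      have h7 := Finset.card_le_card h5
      have h8 := Finset.card_image_le
        (s := Finset.univ.filter fun p : Fin m × Fin n => G.Adj x (e p)) (f := Prod.fst)
      omega
    have h9 := Finset.card_filter_add_card_filter_not (s := (Finset.univ : Finset (Fin m)))
      (fun j : Fin m => ∀ i : Fin n, ¬ G.Adj x (e (j, i)))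
    rw [Finset.card_univ, Fintype.card_fin] at h9
    omega
  have hsum : ∑ x ∈ S, (Finset.univ.filter fun j : Fin m =>
      ∀ i : Fin n, ¬ G.Adj x (e (j, i))).card =
      ∑ j : Fin m, (S.filter fun x => ∀ i : Fin n, ¬ G.Adj x (e (j, i))).card := by
    simp only [Finset.card_filter]
    exact Finset.sum_comm
  have h1 : S.card * (m + 1) ≤ 2 * ∑ x ∈ S, (Finset.univ.filter fun j : Fin m =>
      ∀ i : Fin n, ¬ G.Adj x (e (j, i))).card := by
    rw [Finset.mul_sum, ← smul_eq_mul (S.card), ← Finset.sum_const]
    exact Finset.sum_le_sum hZ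
  have h2 : ∑ j : Fin m, (S.filter fun x => ∀ i : Fin n, ¬ G.Adj x (e (j, i))).card ≤
      m * (n - 1) := by
    calc ∑ j : Fin m, (S.filter fun x => ∀ i : Fin n, ¬ G.Adj x (e (j, i))).card
        ≤ ∑ _j : Fin m, (n - 1) := Finset.sum_le_sum fun j _ => hB j
      _ = m * (n - 1) := by simp
  rw [hsum] at h1
  by_contra hc
  have h3 : 2 * n * (m + 1) ≤ S.card * (m + 1) := Nat.mul_le_mul_right _ (not_lt.1 hc)
  have h4 : 2 * n * (m + 1) ≤ 2 * (m * (n - 1)) := by omega
  obtain ⟨n', rfl⟩ : ∃ n', n = n' + 1 := ⟨n - 1, by omega⟩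
  simp only [Nat.add_sub_cancel] at h4
  nlinarith

end Pool.Agent.V5helper36.FB
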